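import Mathlib
import Pool.Agent.J4.H73.SG.Main

/-!
# The bound `|b_n| ≤ 2 / (n + 1)` for even `n` fails already for `n = 4`

The counterexample is a composition of five radial slit maps. Let

`κ = (1, (-4 + 3 i) / 5, (5 + 12 i) / 13, (5 - 12 i) / 13, (-4 - 3 i) / 5)` and
`X = (1, 12/13, 5/6, 5/7, 3/5, 0)`.

The functions `V_0 = z, V_1, …, V_5 = f` are defined by

`V_i + κ_i² X_i² / V_i = V_{i-1} + κ_i² X_{i-1}² / V_{i-1} + 2 κ_i (X_{i-1} - X_i)`, `|V_i| > X_i`.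

They are univalent in `|z| > 1`, and the coefficient `b_4` of `f` is a Gaussian rational number, of
modulus `0.40070… > 2 / 5`.
-/

set_option autoImplicit false

open Complex

namespace Pool.Agent.Results.MP_757d88_an.FourthCoefficient

/-- `f` belongs to the class `Σ` and `b` is the sequence of its coefficients: `f` is holomorphic and
injective on `|z| > 1`, and `f(z) = z + ∑_{m ≥ 0} b_m z^{-m}` there. -/
def InSigma (f : ℂ → ℂ) (b : ℕ → ℂ) : Prop :=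
  DifferentiableOn ℂ f {z | 1 < ‖z‖} ∧ Set.InjOn f {z | 1 < ‖z‖} ∧
    ∀ z : ℂ, 1 < ‖z‖ → HasSum (fun m : ℕ => b m * (z ^ m)⁻¹) (f z - z)

theorem main : ∃ (f : ℂ → ℂ) (b : ℕ → ℂ), InSigma f b ∧ 4007 / 10000 < ‖b 4‖ := by
  refine ⟨Pool.Agent.J4.H73.SG.ff, fun m => Pool.Agent.J4.H73.SG.cf (m + 1),
    ⟨Pool.Agent.J4.H73.SG.ff_diff, Pool.Agent.J4.H73.SG.ff_inj,
      fun z hz => Pool.Agent.J4.H73.SG.ff_sum hz⟩, ?_⟩
  show 4007 / 10000 < ‖Pool.Agent.J4.H73.SG.cf 5‖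
  rw [Pool.Agent.J4.H73.SG.cf_five]
  refine lt_of_pow_lt_pow_left₀ 2 (norm_nonneg _) ?_
  rw [← normSq_eq_norm_sq, normSq_apply]
  simp
  norm_num

/-- **Theorem.** There is a function `f(z) = z + ∑ b_m z^{-m}` in the class `Σ` with
`|b_4| > 0.4007 > 2 / 5`. Hence it is not true that `|b_n| ≤ 2 / (n + 1)` for all even `n ≥ 4` and
all functions in `Σ`. -/
theorem result :
    (∃ (f : ℂ → ℂ) (b : ℕ → ℂ), InSigma f b ∧ 4007 / 10000 < ‖b 4‖) ∧
    ¬ ∀ n : ℕ, Even n → 4 ≤ n → ∀ (f : ℂ → ℂ) (b : ℕ → ℂ), InSigma f b →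
      ‖b n‖ ≤ 2 / ((n : ℝ) + 1) := by
  refine ⟨main, fun h => ?_⟩
  obtain ⟨f, b, hf, hb⟩ := main
  have h1 := h 4 (by decide) le_rfl f b hf
  norm_num at h1
  linarith

end Pool.Agent.Results.MP_757d88_an.FourthCoefficient
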